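import Pool.Agent.H95.ILV.Targets
import Pool.Agent.H87.Synth.Vals

/-!
# MP_de9001_an, invariant levels: row GAD

The gadget: a sum of three tensor products of Rudin-Shapiro signs.
-/

set_option autoImplicit false

open MeasureTheory AddCircle Filter Topology Pool.Agent.H87.Synth Pool.Agent.H23.Synth
  Pool.Agent.H95.ILV Pool.Agent.H87.Synth.Con

namespace Pool.Agent.H24.ILV

noncomputable section

/-- integer sign of a bit -/
def bZ (b : Bool) : ℤ := if b then -1 else 1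

lemma bZ_cast (b : Bool) : ((bZ b : ℤ) : ℂ) = sgn b := by
  cases b <;> simp [bZ, sgn]

lemma bZ_cases (b : Bool) : bZ b = 1 ∨ bZ b = -1 := by
  cases b <;> simp [bZ]

/-- balanced Rudin-Shapiro signs of length `2 ^ (2 k) * 2` -/
def ri (k t : ℕ) : ℤ := bZ (rsb false (2 * k) (t % 2 ^ (2 * k))) * bZ (b0 (t / 2 ^ (2 * k)))

lemma ri_cases (k t : ℕ) : ri k t = 1 ∨ ri k t = -1 := by
  unfold ri
  rcases bZ_cases (rsb false (2 * k) (t % 2 ^ (2 * k))) with h | h <;>
    rcases bZ_cases (b0 (t / 2 ^ (2 * k))) with h' | h' <;> rw [h, h'] <;> simp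

def rc (k : ℕ) : ℕ → ℂ := fun t => ((ri k t : ℤ) : ℂ)

lemma rc_eq (k : ℕ) : rc k = tens (2 ^ (2 * k)) (fun t => sgn (rsb false (2 * k) t)) sb := by
  funext t
  unfold rc ri tens sb
  rw [Int.cast_mul, bZ_cast, bZ_cast]

def qq (k : ℕ) : ℕ := 2 ^ (2 * k) * 2

lemma qq_pos (k : ℕ) : 0 < qq k := by unfold qq; positivity

lemma qq_eq (k : ℕ) : qq k = 2 ^ (2 * k + 1) := by unfold qq; rw [pow_succ]

lemma P_eq (k : ℕ) : 2 ^ (6 * k + 3) = qq k * (qq k * qq k) := by
  rw [qq_eq, ← pow_add, ← pow_add]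
  congr 1
  ring

lemma SN_rc (k : ℕ) : SN (qq k) (rc k) (4 * 2 ^ k) := by
  rw [rc_eq]
  have h := SN.tens (A := 2 ^ (2 * k)) (B := 2) (by positivity) (SN_rs k) (SN_se true)
  refine SN.mono (h) ?_
  nlinarith [show (0 : ℝ) < 2 ^ k by positivity]

lemma GN_q1 (k : ℕ) : GN (qq k) one (4 * ((k : ℝ) + 1)) := by
  have h := GN_one (2 * k + 1)
  rw [← qq_eq] at h
  refine GN.mono h ?_
  push_cast
  nlinarith [Nat.cast_nonneg (α := ℝ) k]

/-- balanced: the two signs occur equally often -/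
lemma sum_rc (k : ℕ) (Φ : ℤ → ℂ) :
    ∑ t ∈ Finset.range (qq k), rc k t * Φ (ri k t) = 2 ^ (2 * k) * (Φ 1 - Φ (-1)) := by
  unfold qq
  rw [sum_range_mul', Finset.sum_comm]
  have h : ∀ a ∈ Finset.range (2 ^ (2 * k)), ∑ b ∈ Finset.range 2,
      rc k (2 ^ (2 * k) * b + a) * Φ (ri k (2 ^ (2 * k) * b + a)) = Φ 1 - Φ (-1) := by
    intro a ha
    have ha' := Finset.mem_range.1 ha
    have hri : ∀ b : ℕ, ri k (2 ^ (2 * k) * b + a) = bZ (rsb false (2 * k) a) * bZ (b0 b) := by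
      intro b
      unfold ri
      rw [Nat.mul_add_mod, Nat.mod_eq_of_lt ha', Nat.mul_add_div (Nat.two_pow_pos _),
        Nat.div_eq_of_lt ha', add_zero]
    rw [Finset.sum_range_succ, Finset.sum_range_one]
    unfold rc
    rw [hri, hri]
    have e0 : bZ (b0 0) = 1 := by simp [b0, bZ]
    have e1 : bZ (b0 1) = -1 := by simp [b0, bZ]
    rw [e0, e1]
    rcases bZ_cases (rsb false (2 * k) a) with h | h <;> rw [h] <;> norm_num <;> ring
  rw [Finset.sum_congr rfl h, Finset.sum_const, Finset.card_range, nsmul_eq_mul]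
  push_cast
  ring

/-- the signs of the gadget -/
def ss (k a : ℕ) : ℤ := ri k (a % qq k) + ri k (a / qq k % qq k) + ri k (a / qq k / qq k)

/-- the weights of the gadget -/
def gg (k a : ℕ) : ℂ := (8 / (2 : ℂ) ^ (6 * k + 3)) *
  tens (qq k) (rc k) (tens (qq k) (rc k) (rc k)) a

lemma GN_ss (k : ℕ) : GN (qq k * (qq k * qq k)) (fun a => ((ss k a : ℤ) : ℂ))
    (200 * 2 ^ k * ((k : ℝ) + 1) ^ 2) := by
  have hq := qq_pos k
  have hr := (SN_rc k).gn
  have h1 := GN.tens hq (by positivity) hr (GN.tens hq hq (GN_q1 k) (GN_q1 k))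
  have h2 := GN.tens hq (by positivity) (GN_q1 k) (GN.tens hq hq hr (GN_q1 k))
  have h3 := GN.tens hq (by positivity) (GN_q1 k) (GN.tens hq hq (GN_q1 k) hr)
  have h := GN_add (GN_add h1 h2) h3
  refine GN.mono (GN_congr ?_ h) ?_
  · intro a _
    simp only [tens, one, ss, rc, one_mul, mul_one]
    push_cast
    ring
  · have hk : (0 : ℝ) ≤ k := Nat.cast_nonneg _
    have h2 : (0 : ℝ) < 2 ^ k := by positivity
    have : 4 * 2 ^ k * (4 * ((k : ℝ) + 1) * (4 * ((k : ℝ) + 1))) +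
        4 * ((k : ℝ) + 1) * (4 * 2 ^ k * (4 * ((k : ℝ) + 1))) +
        4 * ((k : ℝ) + 1) * (4 * ((k : ℝ) + 1) * (4 * 2 ^ k)) =
        192 * 2 ^ k * ((k : ℝ) + 1) ^ 2 := by ring
    rw [this]
    have h3 : 0 ≤ 2 ^ k * ((k : ℝ) + 1) ^ 2 := by positivity
    nlinarith

lemma norm_c (k : ℕ) : ‖(8 / (2 : ℂ) ^ (6 * k + 3) : ℂ)‖ * (4 * 2 ^ k * (4 * 2 ^ k * (4 * 2 ^ k))) =
    64 * (1 / 8 : ℝ) ^ k := by
  rw [norm_div, norm_pow]
  simp only [Complex.norm_ofNat]
  have h1 : (2 : ℝ) ^ (6 * k + 3) = 8 * (8 : ℝ) ^ k * (8 : ℝ) ^ k := by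
    rw [pow_add, pow_mul]
    have : ((2 : ℝ) ^ 6) ^ k = (8 : ℝ) ^ k * (8 : ℝ) ^ k := by
      rw [← mul_pow]; norm_num
    rw [this]; norm_num; ring
  have h2 : (4 * 2 ^ k * (4 * 2 ^ k * (4 * 2 ^ k)) : ℝ) = 64 * (8 : ℝ) ^ k := by
    have : (8 : ℝ) ^ k = 2 ^ k * 2 ^ k * 2 ^ k := by
      rw [← mul_pow, ← mul_pow]; norm_num
    rw [this]; ring
  rw [h1, h2, one_div, inv_pow]
  have : (8 : ℝ) ^ k ≠ 0 := by positivity
  field_simp

lemma SN_gg (k : ℕ) : SN (qq k * (qq k * qq k)) (gg k) (64 * (1 / 8 : ℝ) ^ k) := by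
  have hq := qq_pos k
  have h := SN_smul (8 / (2 : ℂ) ^ (6 * k + 3))
    (SN.tens (B := qq k * qq k) hq (SN_rc k) (SN.tens (B := qq k) hq (SN_rc k) (SN_rc k)))
  rw [norm_c] at h
  exact h

theorem pf_GAD : T_GAD := by
  refine ⟨200, by norm_num, fun k => ⟨ss k, gg k, ?_⟩⟩
  have hq := qq_pos k
  constructor
  · intro a
    unfold ss
    rcases ri_cases k (a % qq k) with h | h <;>
      rcases ri_cases k (a / qq k % qq k) with h' | h' <;>
      rcases ri_cases k (a / qq k / qq k) with h'' | h'' <;> rw [h, h', h''] <;> norm_num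
  · have h := norm_le_of_GN (by positivity) (GN_ss k) 0
    rw [P_eq]
    simpa using h
  · intro F
    rw [P_eq, sum_range_mul', sum_range_mul']
    have hterm : ∀ c ∈ Finset.range (qq k), ∀ b ∈ Finset.range (qq k),
        ∀ a ∈ Finset.range (qq k),
        gg k (qq k * (qq k * c + b) + a) * F (ss k (qq k * (qq k * c + b) + a)) =
        (8 / (2 : ℂ) ^ (6 * k + 3)) * (rc k c * (rc k b * (rc k a *
          F (ri k a + ri k b + ri k c)))) := by
      intro c hc b hb a ha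
      have ha' := Finset.mem_range.1 ha
      have hb' := Finset.mem_range.1 hb
      have hc' := Finset.mem_range.1 hc
      unfold gg ss tens
      rw [Nat.mul_add_mod, Nat.mod_eq_of_lt ha', Nat.mul_add_div hq, Nat.div_eq_of_lt ha',
        add_zero, Nat.mul_add_mod, Nat.mod_eq_of_lt hb', Nat.mul_add_div hq,
        Nat.div_eq_of_lt hb', add_zero]
      ring
    rw [Finset.sum_congr rfl fun c hc => Finset.sum_congr rfl fun b hb =>
      Finset.sum_congr rfl fun a ha => hterm c hc b hb a ha]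
    have h1 : ∀ c b : ℕ, ∑ a ∈ Finset.range (qq k), (8 / (2 : ℂ) ^ (6 * k + 3)) *
        (rc k c * (rc k b * (rc k a * F (ri k a + ri k b + ri k c)))) =
        (8 / (2 : ℂ) ^ (6 * k + 3)) * (rc k c * (rc k b * (2 ^ (2 * k) *
          (F (1 + ri k b + ri k c) - F (-1 + ri k b + ri k c))))) := by
      intro c b
      rw [← sum_rc k (fun x => F (x + ri k b + ri k c)), Finset.mul_sum, Finset.mul_sum,
        Finset.mul_sum]
    simp only [h1]
    have h2 : ∀ c : ℕ, ∑ b ∈ Finset.range (qq k), (8 / (2 : ℂ) ^ (6 * k + 3)) *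
        (rc k c * (rc k b * (2 ^ (2 * k) *
          (F (1 + ri k b + ri k c) - F (-1 + ri k b + ri k c))))) =
        (8 / (2 : ℂ) ^ (6 * k + 3)) * (rc k c * (2 ^ (2 * k) * (2 ^ (2 * k) *
          ((F (1 + 1 + ri k c) - F (-1 + 1 + ri k c)) -
           (F (1 + -1 + ri k c) - F (-1 + -1 + ri k c)))))) := by
      intro c
      have := sum_rc k (fun x => 2 ^ (2 * k) * (F (1 + x + ri k c) - F (-1 + x + ri k c)))
      rw [← Finset.mul_sum, ← Finset.mul_sum, this]
      ring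
    simp only [h2]
    have h3 := sum_rc k (fun x => F (1 + 1 + x) - F (-1 + 1 + x) -
           (F (1 + -1 + x) - F (-1 + -1 + x)))
    have h4 : ∑ c ∈ Finset.range (qq k), (8 / (2 : ℂ) ^ (6 * k + 3)) *
        (rc k c * (2 ^ (2 * k) * (2 ^ (2 * k) *
          ((F (1 + 1 + ri k c) - F (-1 + 1 + ri k c)) -
           (F (1 + -1 + ri k c) - F (-1 + -1 + ri k c)))))) =
        (8 / (2 : ℂ) ^ (6 * k + 3)) * 2 ^ (2 * k) * 2 ^ (2 * k) *
          ∑ c ∈ Finset.range (qq k), rc k c * (F (1 + 1 + ri k c) - F (-1 + 1 + ri k c) -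
           (F (1 + -1 + ri k c) - F (-1 + -1 + ri k c))) := by
      rw [Finset.mul_sum]
      exact Finset.sum_congr rfl fun c _ => by ring
    rw [h4, h3]
    have h5 : (8 / (2 : ℂ) ^ (6 * k + 3)) * 2 ^ (2 * k) * 2 ^ (2 * k) * 2 ^ (2 * k) = 1 := by
      have : (2 : ℂ) ^ (6 * k + 3) = 8 * (2 ^ (2 * k) * 2 ^ (2 * k) * 2 ^ (2 * k)) := by
        rw [← pow_add, ← pow_add, pow_add]
        have : 2 * k + 2 * k + 2 * k = 6 * k := by ring
        rw [this]; norm_num; ring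
      rw [this]
      have h0 : (2 : ℂ) ^ (2 * k) ≠ 0 := pow_ne_zero _ two_ne_zero
      field_simp
    norm_num
    linear_combination (F 3 - F 1 - (F 1 - F (-1)) - (F 1 - F (-1) - (F (-1) - F (-3)))) * h5
  · intro h b
    have hinj : Set.InjOn (fun a : ℕ => b + (a : ℤ)) (Finset.range (2 ^ (6 * k + 3)) : Set ℕ) := by
      intro a _ a' _ hab
      simpa using hab
    let w : ℤ → ℂ := fun n => gg k (n - b).toNat
    have h2 : ∑ a ∈ Finset.range (2 ^ (6 * k + 3)), gg k a * coeff h (b + a) =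
        ∑ n ∈ (Finset.range (2 ^ (6 * k + 3))).image (fun a : ℕ => b + (a : ℤ)),
          w n * coeff h n := by
      rw [Finset.sum_image hinj]
      refine Finset.sum_congr rfl fun a _ => ?_
      simp [w]
    rw [h2]
    refine norm_functional_le _ _ _ (fun x => ?_) h
    rw [Finset.sum_image hinj]
    have h3 := norm_le_of_SN (SN_gg k) b x
    rw [← P_eq] at h3
    have h4 : ∑ a ∈ Finset.range (2 ^ (6 * k + 3)),
        w (b + (a : ℤ)) * (fourier (-(b + (a : ℤ))) x : ℂ) =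
        ∑ a ∈ Finset.range (2 ^ (6 * k + 3)), gg k a * (fourier (-(b + (a : ℤ))) x : ℂ) := by
      refine Finset.sum_congr rfl fun a _ => ?_
      simp [w]
    rw [h4]
    refine h3.trans ?_
    have : (0 : ℝ) < (1 / 8 : ℝ) ^ k := by positivity
    nlinarith

end

end Pool.Agent.H24.ILV
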